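import Pool.Agent.Lib.MP_7018e1_co.Main

set_option autoImplicit false

namespace Pool.Agent.Results.MP_7018e1_co.BreakerWins

open Pool.Agent.Lib.MP_7018e1_co

/-- The threshold exponent: the supremum (in the extended reals) of all `β` for which the game
with `m t = ⌊t ^ α⌋`, `b t = ⌊t ^ β⌋` is a Maker win. -/
noncomputable def betaC (α : ℝ) : EReal :=
  ⨆ β ∈ {β : ℝ | MakerWin (powFloor α) (powFloor β)}, (β : EReal)

theorem result :
    (¬ ∃ α : ℝ, α < 1 ∧ 0 < betaC α) ∧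
    (∀ α β : ℝ, 0 < β → ¬ MakerWin (powFloor α) (powFloor β)) ∧
    (∀ α β : ℝ, 0 < β → ∀ ε : ℝ, 0 < ε → ∀ᶠ n : ℕ in Filter.atTop, ∀ T : ℕ,
      Forces (powFloor α) (powFloor β) n T → (1 - ε) * n ≤ (powFloor α T : ℝ)) := by
  refine ⟨?_, not_makerWin, breaker_pow⟩
  rintro ⟨α, -, h⟩
  refine absurd h (not_lt.mpr (iSup₂_le fun β hβ => ?_))
  have : β ≤ 0 := not_lt.mp fun hc => not_makerWin α β hc hβ
  exact_mod_cast this

end Pool.Agent.Results.MP_7018e1_co.BreakerWins
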